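import Pool.Agent.Y489.PH.Stm2
import Pool.Agent.Y485.HS.Loc

/-!
Project PH (helper489), job LOC2: the local theorem for profinite groups.
-/

set_option autoImplicit false

open MeasureTheory Set Metric Filter Topology
open scoped ENNReal NNReal

noncomputable section

namespace Pool.Agent.Y143.PH

open Pool.Agent.Y485.HS Pool.Agent.Y489.PH

variable {n : ℕ}

/-- the affine map of the rescaling -/
def Af (y : E n) (r : ℝ) (v : E n) : E n := y + (r / 4) • v

theorem Af_inj {y : E n} {r : ℝ} (hr : 0 < r) : Function.Injective (Af y r) := by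
  intro a b h
  have h1 : (r / 4) • a = (r / 4) • b := by simpa [Af] using h
  have h2 : (r / 4 : ℝ) ≠ 0 := by positivity
  exact smul_right_injective (E n) h2 h1

theorem Af_dist {y : E n} {r : ℝ} (hr : 0 < r) (a b : E n) :
    dist (Af y r a) (Af y r b) = r / 4 * dist a b := by
  have h2 : (0 : ℝ) ≤ r / 4 := by positivity
  rw [Af, Af, dist_add_left, dist_smul₀, Real.norm_of_nonneg h2]

theorem Af_cont {y : E n} {r : ℝ} : Continuous (Af y r) := by
  unfold Af
  fun_prop

theorem Af_dist_center {y : E n} {r : ℝ} (hr : 0 < r) (a : E n) :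
    dist (Af y r a) y = r / 4 * ‖a‖ := by
  have h2 : (0 : ℝ) ≤ r / 4 := by positivity
  rw [Af, dist_eq_norm, add_sub_cancel_left, norm_smul, Real.norm_of_nonneg h2]

theorem Af_norm {y : E n} {r : ℝ} (hr : 0 < r) (hr1 : r ≤ 1) (hy : y ∈ ball (0 : E n) 2)
    {a : E n} (ha : ‖a‖ ≤ 4) : ‖Af y r a‖ < 3 := by
  have h2 : (0 : ℝ) ≤ r / 4 := by positivity
  have h3 : ‖y‖ < 2 := by simpa using hy
  have h4 : ‖(r / 4) • a‖ ≤ 1 := by
    rw [norm_smul, Real.norm_of_nonneg h2]
    nlinarith [norm_nonneg a]
  calc ‖Af y r a‖ ≤ ‖y‖ + ‖(r / 4) • a‖ := norm_add_le _ _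
    _ < 3 := by linarith

theorem Af_surj {y : E n} {r : ℝ} (hr : 0 < r) (x : E n) :
    Af y r ((4 / r) • (x - y)) = x := by
  have h : r / 4 * (4 / r) = 1 := by field_simp
  rw [Af, smul_smul, h, one_smul]
  abel

theorem resc_dist {y : E n} {r : ℝ} (hr : 0 < r) (a b : E n) :
    dist ((4 / r) • (a - y)) ((4 / r) • (b - y)) = 4 / r * dist a b := by
  have h2 : (0 : ℝ) ≤ 4 / r := by positivity
  rw [dist_smul₀, dist_sub_right, Real.norm_of_nonneg h2]

theorem resc_Af {y : E n} {r : ℝ} (hr : 0 < r) (v : E n) : (4 / r) • (Af y r v - y) = v := by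
  have h : 4 / r * (r / 4) = 1 := by field_simp
  rw [Af, add_sub_cancel_left, smul_smul, h, one_smul]

/-- the estimate behind the transfer of pointwise Lipschitz bounds -/
theorem resc_le {y : E n} {r : ℝ} (hr : 0 < r) (hr1 : r ≤ 1) (hy : y ∈ ball (0 : E n) 2)
    {u : E n → E n} {N δ : ℝ} {v : E n}
    (h : ∀ z ∈ BB n, dist z (Af y r v) < δ → dist (u z) (u (Af y r v)) ≤ N * dist z (Af y r v)) :
    ∀ z ∈ BB n, dist z v < 4 / r * δ →
      dist ((4 / r) • (u (Af y r z) - y)) ((4 / r) • (u (Af y r v) - y)) ≤ N * dist z v := by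
  intro z hz hzv
  have hzB : Af y r z ∈ BB n := by
    have := Af_norm hr hr1 hy (mem_BB.1 hz)
    exact mem_BB.2 (by linarith)
  have h1 : dist (Af y r z) (Af y r v) < δ := by
    rw [Af_dist hr]
    calc r / 4 * dist z v < r / 4 * (4 / r * δ) := by
          exact mul_lt_mul_of_pos_left hzv (by positivity)
      _ = δ := by field_simp
  have h2 := h _ hzB h1
  rw [Af_dist hr] at h2
  rw [resc_dist hr]
  calc 4 / r * dist (u (Af y r z)) (u (Af y r v)) ≤ 4 / r * (N * (r / 4 * dist z v)) := by
        exact mul_le_mul_of_nonneg_left h2 (by positivity)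
    _ = N * dist z v := by field_simp

/-- PH-LOC2 -/
theorem t_LOC2 (hRES : S_RES) (hBA : S_BA) (hAV : S_AV) (hLOCP : S_LOCP)
    (hSYL : Pool.Agent.Y485.HS.S_SYL) : S_LOC2 := by
  intro n hn H _ _ _ _ _ _ T hT hPL y0 hy0
  by_contra hcon
  obtain ⟨y, hy, hyT, K, ρ, Z, hKo, hρ, hZ, hKZ⟩ := hBA n H T hT hPL ⟨y0, hy0, hcon⟩
  obtain ⟨r, K', hr0, hrρ, hr1, hK'o, hK'K, hT'⟩ := hRES n H T hT y hy K hKo ρ hρ
  change LocAct n K' (fun (k : K') (v : E n) => (4 / r) • (T (k : H) (Af y r v) - y)) at hT'
  have hK'c : IsClosed (K' : Set H) := Subgroup.isClosed_of_isOpen K' hK'o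
  have : CompactSpace K' := isCompact_iff_compactSpace.1 hK'c.isCompact
  set T' : K' → E n → E n := fun (k : K') (v : E n) => (4 / r) • (T (k : H) (Af y r v) - y)
    with hT'def
  -- every map is Lipschitz off a countable set
  have hPL' : ∀ k : K', PLoc (T' k) := by
    intro k
    have h1 := (hPL (k : H)).preimage (Af_inj (y := y) hr0)
    refine h1.mono ?_
    rintro v ⟨hv, hvP⟩
    have hv4 : ‖v‖ < 4 := by simpa using hv
    refine ⟨?_, fun h => hvP ?_⟩
    · have := Af_norm hr0 hr1 hy hv4.le
      simp only [mem_ball, dist_zero_right]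
      linarith
    · obtain ⟨N, δ, hδ, hN⟩ := h
      exact ⟨N, 4 / r * δ, by positivity, resc_le hr0 hr1 hy hN⟩
  -- the subgroup acting trivially
  have hone : ∀ x : E n, x ∈ ball (0 : E n) 1 → x ∈ BB n := fun x hx => by
    have : ‖x‖ < 1 := by simpa using hx
    exact mem_BB.2 (by linarith)
  let D : Subgroup K' :=
    { carrier := {k | ∀ x ∈ ball (0 : E n) 1, T' k x = x}
      mul_mem' := by
        intro a b ha hb x hx
        have hxB := hone x hx
        have h1 := hT'.mul a b x hxB (by rw [hb x hx]; exact hxB)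
        rw [h1, hb x hx, ha x hx]
      one_mem' := by
        intro x hx
        exact hT'.one x (hone x hx)
      inv_mem' := by
        intro a ha x hx
        have hxB := hone x hx
        have h1 := hT'.inv a hxB (by rw [ha x hx]; exact hxB)
        rw [ha x hx] at h1
        exact h1 }
  have hDc : IsClosed (D : Set K') := by
    have h1 : (D : Set K') = ⋂ x ∈ ball (0 : E n) 1, {k : K' | T' k x = x} := by
      ext k
      simp only [mem_iInter]
      rfl
    rw [h1]
    refine isClosed_biInter fun x hx => ?_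
    exact isClosed_eq (hT'.cont_left (hone x hx)) continuous_const
  have hD : D = ⊤ := by
    refine hSYL K' D hDc ?_
    intro p hp P hPc hPp k hk
    have : CompactSpace P := isCompact_iff_compactSpace.1 hPc.isCompact
    let _ : MeasurableSpace P := borel P
    have _ : BorelSpace P := ⟨rfl⟩
    let μ : Measure P := Measure.haarMeasure ⊤
    have hμ1 : IsProbabilityMeasure μ := ⟨by
      have := Measure.haarMeasure_self (K₀ := (⊤ : TopologicalSpace.PositiveCompacts P))
      simpa using this⟩
    have hTP := hT'.restrict P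
    have hav := hAV n P μ (fun q : P => T' (q : K')) hTP (fun q => hPL' (q : K'))
      (Af y r ⁻¹' Z) (hZ.preimage (Af_inj hr0)) ?_
    · exact hLOCP p hp n hn P μ (fun q : P => T' (q : K')) hTP hPp hav ⟨k, hk⟩
    · intro v hv hvZ
      have hv4 : ‖v‖ < 4 := by simpa using hv
      have hvρ : Af y r v ∈ ball y ρ := by
        rw [mem_ball, Af_dist_center hr0]
        have : r / 4 * ‖v‖ < r / 4 * 4 := mul_lt_mul_of_pos_left hv4 (by positivity)
        linarith
      rcases hKZ _ hvρ hvZ with h | h
      · left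
        obtain ⟨L, hLo, hL⟩ := h
        refine ⟨(L.comap K'.subtype).comap P.subtype, ?_, ?_⟩
        · have hc : Continuous (fun q : P => (((q : K') : H))) :=
            continuous_subtype_val.comp continuous_subtype_val
          exact hLo.preimage hc
        · have h1 : Tendsto (Af y r) (𝓝 v) (𝓝 (Af y r v)) := Af_cont.tendsto v
          filter_upwards [h1.eventually hL] with v' hv' q hq
          have hq' : T ((q : K') : H) (Af y r v') = Af y r v' := hv' _ hq
          show (4 / r) • (T ((q : K') : H) (Af y r v') - y) = v'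
          rw [hq', resc_Af hr0]
      · right
        obtain ⟨N, δ, hδ, hN⟩ := h
        refine ⟨N, 4 / r * δ, by positivity, fun q _ => ?_⟩
        exact resc_le hr0 hr1 hy (hN _ (hK'K (q : K').2))
  -- conclusion
  apply hyT
  refine ⟨K', hK'o, ?_⟩
  filter_upwards [ball_mem_nhds y (show (0 : ℝ) < r / 4 by positivity)] with x hx k hk
  have hmem : (⟨k, hk⟩ : K') ∈ D := by rw [hD]; exact Subgroup.mem_top _
  have hv : (4 / r) • (x - y) ∈ ball (0 : E n) 1 := by
    have h4 : (0 : ℝ) ≤ 4 / r := by positivity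
    rw [mem_ball, dist_eq_norm] at hx
    rw [mem_ball, dist_zero_right, norm_smul, Real.norm_of_nonneg h4]
    calc 4 / r * ‖x - y‖ < 4 / r * (r / 4) := mul_lt_mul_of_pos_left hx (by positivity)
      _ = 1 := by field_simp
  have h1 : (4 / r) • (T k (Af y r ((4 / r) • (x - y))) - y) = (4 / r) • (x - y) := hmem _ hv
  rw [Af_surj hr0] at h1
  have h4 : (4 / r : ℝ) ≠ 0 := by positivity
  have h2 := smul_right_injective (E n) h4 h1
  simpa using h2

end Pool.Agent.Y143.PH
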